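import Pool.Agent.H61.CMC.TargetsE1
import Pool.Agent.H61.CM4B.GGB

/-!
# CMC, part E1, row GMA: the Gamma factors are admissible
-/

set_option autoImplicit false

namespace Pool.Agent.H19.CMC1

open MeasureTheory Set Filter NumberField NumberField.InfinitePlace NumberField.Units
  NumberField.Units.dirichletUnitTheorem Pool.Agent.H65.CM4 Pool.Agent.H65.CMC Pool.Agent.H25.HK
  Pool.Agent.H61.CM4 Pool.Agent.H61.CMC
open scoped Real

theorem hg_one : HG (fun _ => 1) := by
  refine ⟨fun w _ => differentiableAt_const _, fun R => ⟨1, 0, zero_le_one, fun w _ _ => ?_⟩⟩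
  simp

theorem hg_mul {G H : ℂ → ℂ} (hG : HG G) (hH : HG H) : HG (fun w => G w * H w) := by
  refine ⟨fun w hw => (hG.1 w hw).mul (hH.1 w hw), fun R => ?_⟩
  obtain ⟨C, j, hC, h1⟩ := hG.2 R
  obtain ⟨D, i, hD, h2⟩ := hH.2 R
  refine ⟨C * D, j + i, mul_nonneg hC hD, fun w hw hR => ?_⟩
  have h3 := h1 w hw hR
  have h4 := h2 w hw hR
  have h5 : 0 ≤ (1 + |w.im|) := by positivity
  calc ‖G w * H w‖ = ‖G w‖ * ‖H w‖ := norm_mul _ _
    _ ≤ (C * (1 + |w.im|) ^ j) * (D * (1 + |w.im|) ^ i) := by gcongr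
    _ = C * D * (1 + |w.im|) ^ (j + i) := by ring

theorem hg_prod {ι : Type} (s : Finset ι) (G : ι → ℂ → ℂ) (hG : ∀ i, HG (G i)) :
    HG (fun w => ∏ i ∈ s, G i w) := by
  classical
  induction s using Finset.induction_on with
  | empty => simpa using hg_one
  | insert a s ha ih =>
    have h1 := hg_mul (hG a) ih
    have h2 : (fun w => ∏ i ∈ insert a s, G i w) = fun w => G a w * ∏ i ∈ s, G i w := by
      funext w
      rw [Finset.prod_insert ha]
    rw [h2]
    exact h1

theorem gg_diff (a : ℤ) (w : ℂ) (hw : 0 < w.re) : DifferentiableAt ℂ (gg a) w := by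
  have ha : 0 ≤ ((|a| : ℤ) : ℝ) := by exact_mod_cast abs_nonneg a
  have hG : DifferentiableAt ℂ Complex.Gamma (w + ((|a| : ℤ) : ℂ)) := by
    apply Complex.differentiableAt_Gamma
    intro m h
    have h1 := congrArg Complex.re h
    rw [Complex.add_re, Complex.intCast_re, Complex.neg_re, Complex.natCast_re] at h1
    have := Nat.cast_nonneg (α := ℝ) m
    linarith
  have hG' : DifferentiableAt ℂ (fun s : ℂ => Complex.Gamma (s + ((|a| : ℤ) : ℂ))) w :=
    DifferentiableAt.comp (g := Complex.Gamma) w hG (differentiableAt_id.add_const _)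
  have h2 : ((2 : ℂ) * π) ≠ 0 := by
    exact_mod_cast (by positivity : (2 : ℝ) * π ≠ 0)
  have hP : DifferentiableAt ℂ (fun s : ℂ => ((2 : ℂ) * π) ^ (-s)) w := by
    apply DifferentiableAt.const_cpow
    · exact differentiableAt_id.neg
    · left; exact h2
  unfold gg
  exact ((differentiableAt_id.mul (differentiableAt_id.sub_const 1)).mul hG').mul hP

theorem gg_hg (a : ℤ) : HG (gg a) := by
  refine ⟨gg_diff a, fun R => ?_⟩
  by_cases ha : a = 0
  · subst ha
    obtain ⟨C, j, hC, h⟩ := Pool.Agent.H61.CM4B.pf_GGB.2 R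
    refine ⟨C, j, hC, fun w hw hR => ?_⟩
    have h1 : gg 0 w = gG w := by
      unfold gg gG
      simp
    rw [h1]
    have h2 : Real.exp (-(π * |w.im| / 2)) ≤ 1 := Real.exp_le_one_iff.2 (by
      have := abs_nonneg w.im
      have := Real.pi_pos
      have : 0 ≤ π * |w.im| / 2 := by positivity
      linarith)
    have h3 : 0 ≤ C * (1 + |w.im|) ^ j := by positivity
    calc ‖gG w‖ ≤ C * (1 + |w.im|) ^ j * Real.exp (-(π * |w.im| / 2)) := h w hw hR
      _ ≤ C * (1 + |w.im|) ^ j * 1 := by gcongr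
      _ = _ := mul_one _
  · have ha1 : (1 : ℤ) ≤ |a| := Int.one_le_abs ha
    have ha2 : (1 : ℝ) ≤ ((|a| : ℤ) : ℝ) := by exact_mod_cast ha1
    obtain ⟨n, hn⟩ := exists_nat_ge (R + ((|a| : ℤ) : ℝ))
    obtain ⟨K, hK, hb⟩ := Pool.Agent.H33.LI.gamma_bound n
    refine ⟨(|R| + 1) * (|R| + 1) * K, n + 3, by positivity, ?_⟩
    intro w hw hR
    have h0 : ‖w‖ ≤ (|R| + 1) * (1 + |w.im|) := by
      have h3 := Complex.norm_le_abs_re_add_abs_im w
      have h4 : |w.re| ≤ |R| + 1 := by
        rw [abs_le]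
        have := le_abs_self R
        constructor <;> linarith [abs_nonneg R]
      have h6 := abs_nonneg w.im
      have h7 := abs_nonneg R
      nlinarith
    have h1 : ‖w - 1‖ ≤ (|R| + 1) * (1 + |w.im|) := by
      have h3 := Complex.norm_le_abs_re_add_abs_im (w - 1)
      have h4 : |(w - 1).re| ≤ |R| + 1 := by
        rw [Complex.sub_re, Complex.one_re, abs_le]
        have := le_abs_self R
        constructor <;> linarith [abs_nonneg R]
      have h5 : |(w - 1).im| = |w.im| := by simp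
      rw [h5] at h3
      have h6 := abs_nonneg w.im
      have h7 := abs_nonneg R
      nlinarith
    have h2 : ‖Complex.Gamma (w + ((|a| : ℤ) : ℂ))‖ ≤ K * (1 + |w.im|) ^ (n + 1) := by
      have h3 := hb (w.re + ((|a| : ℤ) : ℝ)) w.im (by linarith) (by linarith)
      have h4 : ((w.re + ((|a| : ℤ) : ℝ) : ℝ) : ℂ) + w.im * Complex.I =
          w + ((|a| : ℤ) : ℂ) := by
        apply Complex.ext <;> simp
      rw [h4] at h3
      have h5 : Real.exp (-(π * |w.im| / 2)) ≤ 1 := Real.exp_le_one_iff.2 (by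
        have := abs_nonneg w.im
        have := Real.pi_pos
        have : 0 ≤ π * |w.im| / 2 := by positivity
        linarith)
      have h6 : 0 ≤ K * (1 + |w.im|) ^ (n + 1) := by positivity
      calc ‖Complex.Gamma (w + ((|a| : ℤ) : ℂ))‖ ≤
            K * (1 + |w.im|) ^ (n + 1) * Real.exp (-(π * |w.im| / 2)) := h3
        _ ≤ K * (1 + |w.im|) ^ (n + 1) * 1 := by gcongr
        _ = _ := mul_one _
    have h3 : ‖(2 * (π : ℂ)) ^ (-w)‖ ≤ 1 := by
      have h4 : (2 * (π : ℂ)) = ((2 * π : ℝ) : ℂ) := by push_cast; ring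
      rw [h4, Complex.norm_cpow_eq_rpow_re_of_pos (by positivity)]
      apply Real.rpow_le_one_of_one_le_of_nonpos
      · have := Real.pi_gt_three; linarith
      · simp only [Complex.neg_re]; linarith
    unfold gg
    rw [norm_mul, norm_mul, norm_mul]
    calc ‖w‖ * ‖w - 1‖ * ‖Complex.Gamma (w + ((|a| : ℤ) : ℂ))‖ * ‖(2 * (π : ℂ)) ^ (-w)‖
        ≤ ((|R| + 1) * (1 + |w.im|)) * ((|R| + 1) * (1 + |w.im|)) *
          (K * (1 + |w.im|) ^ (n + 1)) * 1 := by gcongr
      _ = (|R| + 1) * (|R| + 1) * K * (1 + |w.im|) ^ (n + 3) := by ring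

theorem pf_GMA : T_GMA := by
  intro k _ _ m
  have h := hg_prod (Finset.univ : Finset (Pl k)) (fun v => gg (m v)) (fun v => gg_hg (m v))
  exact h

end Pool.Agent.H19.CMC1
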